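import Pool.Agent.TH882.X4

/-!
# Primes with index in a residue class and almost prime `p + 2`
-/

set_option autoImplicit false

open Finset Filter Topology

namespace Pool.Agent.R518.C

/-- the shift `2` is admissible -/
lemma adm_two : Pool.Agent.TH882.HX.Adm {2} := by
  intro l hl
  by_cases h3 : l = 2 ∨ l = 3
  · refine ⟨-1, ?_, ?_⟩
    · rcases h3 with rfl | rfl <;> norm_num
    · intro a ha
      rw [Finset.mem_singleton] at ha
      subst ha
      rcases h3 with rfl | rfl <;> norm_num
  · push Not at h3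
    have h5 : 4 ≤ l := by
      have := hl.two_le
      omega
    refine ⟨1, ?_, ?_⟩
    · intro hd
      have := Int.le_of_dvd one_pos hd
      omega
    · intro a ha hd
      rw [Finset.mem_singleton] at ha
      subst ha
      have := Int.le_of_dvd (by norm_num) hd
      omega

open Classical in
/-- the indices `3 ≤ j < n`, `j ≡ β` modulo `u`, for which all the numbers `p_{j + i u} + 2`, `i ≤ l`, have at most
`R` prime factors and `j + l u < n` -/
noncomputable def Js (u l R n β : ℕ) : Finset ℕ :=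
  (range n).filter (fun j => 3 ≤ j ∧ j ≡ β [MOD u] ∧ ∀ i ≤ l, j + i * u < n ∧
    ArithmeticFunction.cardFactors (Nat.nth Nat.Prime (j + i * u - 1) + 2) ≤ R)

theorem core (u l : ℕ) (hu : 1 ≤ u) : ∃ R D x₀ : ℕ, ∀ n : ℕ, x₀ ≤ n → ∀ β : ℕ,
    (n : ℝ) / Real.log n ^ D ≤ ((Js u l R n β).card : ℝ) := by
  classical
  obtain ⟨R, D, x₀, h⟩ := Pool.Agent.TH882.HX.indices {2} adm_two u ((l + 3) * u) hu
  refine ⟨R, D, x₀, fun n hn β => ?_⟩
  refine (h n hn).trans ?_
  have hfin : ({j : ℕ | 1 ≤ j ∧ Nat.nth Nat.Prime (j * u + (l + 3) * u - 1) ≤ n ∧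
      ∀ i ≤ (l + 3) * u, Pool.Agent.TH882.AG.AP {2} R (Nat.nth Nat.Prime (j * u + i - 1))}).Finite := by
    apply (finite_toSet (range (n + 1))).subset
    rintro j ⟨h1, h2, -⟩
    rw [mem_coe, mem_range]
    have e1 := Nat.add_two_le_nth_prime (j * u + (l + 3) * u - 1)
    have e2 : j * 1 ≤ j * u := Nat.mul_le_mul_left j hu
    omega
  rw [Set.ncard_eq_toFinset_card _ hfin]
  apply Nat.cast_le.2
  have hmod : β % u < u := Nat.mod_lt β hu
  apply Finset.card_le_card_of_injOn (fun K => K * u + (2 * u + β % u))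
  · intro K hK
    rw [mem_coe, Set.Finite.mem_toFinset] at hK
    obtain ⟨h1, h2, h3⟩ := hK
    have e1 := Nat.add_two_le_nth_prime (K * u + (l + 3) * u - 1)
    have e2 : 1 * u ≤ K * u := Nat.mul_le_mul_right u h1
    have e3 : (l + 3) * u = l * u + 3 * u := by ring
    unfold Js
    rw [mem_coe, mem_filter, mem_range]
    beta_reduce
    have hlt : ∀ i ≤ l, K * u + (2 * u + β % u) + i * u < n := by
      intro i hi
      have e4 : i * u ≤ l * u := Nat.mul_le_mul_right u hi
      omega
    refine ⟨by have := hlt 0 (Nat.zero_le _); omega, by omega, ?_, fun i hi => ⟨hlt i hi, ?_⟩⟩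
    · have e5 : K * u + (2 * u + β % u) = β % u + u * (K + 2) := by ring
      rw [e5]
      unfold Nat.ModEq
      rw [Nat.add_mul_mod_self_left, Nat.mod_mod]
    · have e4 : i * u ≤ l * u := Nat.mul_le_mul_right u hi
      have e5 := (h3 (2 * u + β % u + i * u) (by omega) 2 (Finset.mem_singleton_self _)).2
      have e6 : K * u + (2 * u + β % u + i * u) - 1 = K * u + (2 * u + β % u) + i * u - 1 := by omega
      rw [e6] at e5
      have e7 : ((Nat.nth Nat.Prime (K * u + (2 * u + β % u) + i * u - 1) : ℤ) + 2).toNat =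
          Nat.nth Nat.Prime (K * u + (2 * u + β % u) + i * u - 1) + 2 := by omega
      rwa [e7] at e5
  · intro K _ K' _ hKK
    simp only at hKK
    have : K * u = K' * u := by omega
    exact Nat.eq_of_mul_eq_mul_right (by omega) this

end Pool.Agent.R518.C
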