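import Pool.Agent.R518.B.Sys2

set_option autoImplicit false

/-!
# Four linear forms with leading coefficient `6`
-/

namespace Pool.Agent.R518.G

open Polynomial Finset Filter
open Pool.Agent.W123.RP Pool.Agent.H373R2.T7 Pool.Agent.W123.RU Pool.Agent.W123.RU.Poly
open Pool.Agent.TH464.PW Pool.Agent.TH464.PO Pool.Agent.Y879.GL

/-- the forms `6 x + b i` -/
noncomputable def l6 (b : Fin 4 → ℤ) : Fin 4 → ℤ[X] := fun i => lf 6 (b i)

lemma l6_us (b : Fin 4 → ℤ) (H : ℤ) (hH : 6 ≤ H) (hb : ∀ i, |b i| ≤ H) (hco : ∀ i, IsCoprime (6 : ℤ) (b i))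
    (U : ℝ) (htr : ∀ i j, ∀ t : ℕ, 1 ≤ t → (t : ℝ) ≤ U → b i ≠ b j + 6 * (t : ℤ)) :
    US 4 1 (H : ℝ) U (l6 b) where
  irr := fun i => lf_irr 6 (b i) (by norm_num) (hco i)
  deg := fun i => by
    show (lf 6 (b i)).natDegree ≠ 0
    rw [lf_deg 6 (b i) (by norm_num)]; norm_num
  degD := fun i => (lf_deg 6 (b i) (by norm_num)).le
  hgt := fun i n => by
    have key : |((lf 6 (b i)).coeff n : ℤ)| ≤ H := by
      rw [lf_coeff]
      split_ifs
      · exact hb i
      · simpa using hH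
      · simp only [abs_zero]; linarith
    exact_mod_cast key
  adm := fun p hp => by
    by_cases hp6 : p ∣ 6
    · refine ⟨0, fun i h => ?_⟩
      have h1 : (p : ℤ) ∣ b i := by
        have : (l6 b i).eval ((0 : ℕ) : ℤ) = b i := by
          show (lf 6 (b i)).eval ((0 : ℕ) : ℤ) = b i
          rw [lf_eval]
          simp
        rwa [this] at h
      have h2 : (p : ℤ) ∣ (6 : ℤ) := by exact_mod_cast hp6
      have h3 := (hco i).isUnit_of_dvd' h2 h1
      rw [Int.isUnit_iff] at h3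
      have := hp.two_le
      omega
    · by_contra hcon
      push Not at hcon
      choose f hf using hcon
      have hpp : Prime (p : ℤ) := Nat.prime_iff_prime_int.1 hp
      have hp5 : 5 ≤ p := by
        have h2 := hp.two_le
        by_contra hlt
        push Not at hlt
        interval_cases p
        · exact hp6 (by norm_num)
        · exact hp6 (by norm_num)
        · exact absurd hp (by norm_num)
      have hinj : Set.InjOn f (range p : Finset ℕ) := by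
        intro m hm m' hm' hmm
        rw [mem_coe, mem_range] at hm hm'
        have h1 := hf m
        have h2 := hf m'
        rw [← hmm] at h2
        have e1 : (l6 b (f m)).eval (m : ℤ) = 6 * m + b (f m) := lf_eval _ _ _
        have e2 : (l6 b (f m)).eval (m' : ℤ) = 6 * m' + b (f m) := lf_eval _ _ _
        rw [e1] at h1
        rw [e2] at h2
        have h3 := dvd_sub h1 h2
        have e3 : (6 * (m : ℤ) + b (f m)) - (6 * m' + b (f m)) = 6 * ((m : ℤ) - m') := by ring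
        rw [e3] at h3
        rcases hpp.dvd_or_dvd h3 with h4 | h4
        · exact absurd (by exact_mod_cast h4 : p ∣ 6) hp6
        · by_contra hne
          have h5 : ((m : ℤ) - m') ≠ 0 := by omega
          have h6 := Int.le_of_dvd (abs_pos.2 h5) ((dvd_abs _ _).2 h4)
          have h7 : |(m : ℤ) - m'| < p := by
            rw [abs_lt]
            constructor <;> omega
          omega
      have h1 := Finset.card_le_card_of_injOn f (s := range p) (t := univ) (fun _ _ => mem_coe.2 (mem_univ _)) hinj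
      rw [card_range, card_univ, Fintype.card_fin] at h1
      omega
  tr := fun i j t ht htU ha => by
    rcases lf_assoc _ _ _ _ _ ha with h | h
    · exact htr i j t ht htU (by have := h.2; linarith)
    · have := h.1; omega

/-! ## `p`, its twin candidate, `n - p` and its twin candidate -/

/-- the constants -/
def bb (c e n f : ℤ) : Fin 4 → ℤ := ![c, c + 2 * e, c - n, c - n - 2 * f]

lemma bb_rep (c e n f : ℤ) : Rep (l6 (bb c e n f)) (fun l x => (l : ℤ) ∣ 6 * (x : ℤ) + c ∨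
    (l : ℤ) ∣ 6 * (x : ℤ) + c + 2 * e ∨ (l : ℤ) ∣ n - (6 * (x : ℤ) + c) ∨
    (l : ℤ) ∣ n - (6 * (x : ℤ) + c) + 2 * f) := by
  intro l x
  unfold Poly.Q
  have e0 : (l6 (bb c e n f) 0).eval (x : ℤ) = 6 * x + c := lf_eval _ _ _
  have e1 : (l6 (bb c e n f) 1).eval (x : ℤ) = 6 * x + c + 2 * e := by
    have : (l6 (bb c e n f) 1).eval (x : ℤ) = 6 * x + (c + 2 * e) := lf_eval _ _ _
    rw [this]; ring
  have e2 : (l6 (bb c e n f) 2).eval (x : ℤ) = -(n - (6 * x + c)) := by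
    have : (l6 (bb c e n f) 2).eval (x : ℤ) = 6 * x + (c - n) := lf_eval _ _ _
    rw [this]; ring
  have e3 : (l6 (bb c e n f) 3).eval (x : ℤ) = -(n - (6 * x + c) + 2 * f) := by
    have : (l6 (bb c e n f) 3).eval (x : ℤ) = 6 * x + (c - n - 2 * f) := lf_eval _ _ _
    rw [this]; ring
  constructor
  · rintro ⟨i, hi⟩
    fin_cases i
    · left
      have : (l : ℤ) ∣ (l6 (bb c e n f) 0).eval (x : ℤ) := hi
      rwa [e0] at this
    · right; left
      have : (l : ℤ) ∣ (l6 (bb c e n f) 1).eval (x : ℤ) := hi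
      rwa [e1] at this
    · right; right; left
      have : (l : ℤ) ∣ (l6 (bb c e n f) 2).eval (x : ℤ) := hi
      rwa [e2, dvd_neg] at this
    · right; right; right
      have : (l : ℤ) ∣ (l6 (bb c e n f) 3).eval (x : ℤ) := hi
      rwa [e3, dvd_neg] at this
  · rintro (h | h | h | h)
    · exact ⟨0, by rw [e0]; exact h⟩
    · exact ⟨1, by rw [e1]; exact h⟩
    · exact ⟨2, by rw [e2, dvd_neg]; exact h⟩
    · exact ⟨3, by rw [e3, dvd_neg]; exact h⟩

lemma cop6 {m : ℤ} (h : m % 6 = 1 ∨ m % 6 = 5) : IsCoprime (6 : ℤ) m := by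
  have e : m = m % 6 + 6 * (m / 6) := (Int.emod_add_mul_ediv m 6).symm
  rw [e]
  apply (IsCoprime.add_mul_left_right_iff).2
  rcases h with h | h
  · rw [h]; exact isCoprime_one_right
  · rw [h]
    exact ⟨1, -1, by norm_num⟩

lemma bb_us (n c : ℕ) (e f : ℤ) (hn : 100 ≤ n) (hc : c < 6)
    (h1 : ((c : ℤ) = 5 ∧ e = 1) ∨ ((c : ℤ) = 1 ∧ e = -1))
    (h2 : (((n : ℤ) - c) % 6 = 5 ∧ f = 1) ∨ (((n : ℤ) - c) % 6 = 1 ∧ f = -1))
    (U : ℝ) (hU : 6 * U < (n : ℝ) - 4) :
    US 4 1 (((n : ℤ) ^ 2 : ℤ) : ℝ) U (l6 (bb c e n f)) := by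
  have hsq : (n : ℤ) + 10 ≤ (n : ℤ) ^ 2 := by
    have : (100 : ℤ) ≤ n := by exact_mod_cast hn
    nlinarith
  have hn' : (100 : ℤ) ≤ n := by exact_mod_cast hn
  apply l6_us
  · linarith
  · intro i
    rw [abs_le]
    fin_cases i
    · show -(n : ℤ) ^ 2 ≤ (c : ℤ) ∧ (c : ℤ) ≤ (n : ℤ) ^ 2
      constructor <;> omega
    · show -(n : ℤ) ^ 2 ≤ (c : ℤ) + 2 * e ∧ (c : ℤ) + 2 * e ≤ (n : ℤ) ^ 2
      constructor <;> omega
    · show -(n : ℤ) ^ 2 ≤ (c : ℤ) - n ∧ (c : ℤ) - n ≤ (n : ℤ) ^ 2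
      constructor <;> omega
    · show -(n : ℤ) ^ 2 ≤ (c : ℤ) - n - 2 * f ∧ (c : ℤ) - n - 2 * f ≤ (n : ℤ) ^ 2
      constructor <;> omega
  · intro i
    apply cop6
    fin_cases i
    · show (c : ℤ) % 6 = 1 ∨ (c : ℤ) % 6 = 5
      omega
    · show ((c : ℤ) + 2 * e) % 6 = 1 ∨ ((c : ℤ) + 2 * e) % 6 = 5
      omega
    · show ((c : ℤ) - n) % 6 = 1 ∨ ((c : ℤ) - n) % 6 = 5
      omega
    · show ((c : ℤ) - n - 2 * f) % 6 = 1 ∨ ((c : ℤ) - n - 2 * f) % 6 = 5
      omega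
  · intro i j t ht htU
    have h3 : 6 * (t : ℤ) < (n : ℤ) - 4 := by
      have : 6 * (t : ℝ) < (n : ℝ) - 4 := by linarith
      exact_mod_cast this
    have ht' : (1 : ℤ) ≤ t := by exact_mod_cast ht
    fin_cases i <;> fin_cases j
    · show (c : ℤ) ≠ (c : ℤ) + 6 * t
      omega
    · show (c : ℤ) ≠ (c : ℤ) + 2 * e + 6 * t
      omega
    · show (c : ℤ) ≠ (c : ℤ) - n + 6 * t
      omega
    · show (c : ℤ) ≠ (c : ℤ) - n - 2 * f + 6 * t
      omega
    · show (c : ℤ) + 2 * e ≠ (c : ℤ) + 6 * t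
      omega
    · show (c : ℤ) + 2 * e ≠ (c : ℤ) + 2 * e + 6 * t
      omega
    · show (c : ℤ) + 2 * e ≠ (c : ℤ) - n + 6 * t
      omega
    · show (c : ℤ) + 2 * e ≠ (c : ℤ) - n - 2 * f + 6 * t
      omega
    · show (c : ℤ) - n ≠ (c : ℤ) + 6 * t
      omega
    · show (c : ℤ) - n ≠ (c : ℤ) + 2 * e + 6 * t
      omega
    · show (c : ℤ) - n ≠ (c : ℤ) - n + 6 * t
      omega
    · show (c : ℤ) - n ≠ (c : ℤ) - n - 2 * f + 6 * t
      omega
    · show (c : ℤ) - n - 2 * f ≠ (c : ℤ) + 6 * t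
      omega
    · show (c : ℤ) - n - 2 * f ≠ (c : ℤ) + 2 * e + 6 * t
      omega
    · show (c : ℤ) - n - 2 * f ≠ (c : ℤ) - n + 6 * t
      omega
    · show (c : ℤ) - n - 2 * f ≠ (c : ℤ) - n - 2 * f + 6 * t
      omega

/-! ## the twin candidate -/

/-- the other member of the only possible twin pair with the member `m` prime to `6` -/
def mate (m : ℤ) : ℤ := if m % 6 = 5 then m + 2 else m - 2

lemma mates (n c : ℕ) (h1 : c = 1 ∨ c = 5) (h2 : ((n : ℤ) - c) % 6 = 1 ∨ ((n : ℤ) - c) % 6 = 5) :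
    ∃ e f : ℤ, (((c : ℤ) = 5 ∧ e = 1) ∨ ((c : ℤ) = 1 ∧ e = -1)) ∧
      ((((n : ℤ) - c) % 6 = 5 ∧ f = 1) ∨ (((n : ℤ) - c) % 6 = 1 ∧ f = -1)) ∧
      (∀ x : ℕ, mate (6 * (x : ℤ) + c) = 6 * (x : ℤ) + c + 2 * e) ∧
      (∀ x : ℕ, mate ((n : ℤ) - (6 * (x : ℤ) + c)) = (n : ℤ) - (6 * (x : ℤ) + c) + 2 * f) := by
  have hm1 : ∀ m : ℤ, m % 6 = 5 → mate m = m + 2 * 1 := fun m hm => by
    unfold mate
    rw [if_pos hm]
    ring
  have hm2 : ∀ m : ℤ, m % 6 = 1 → mate m = m + 2 * (-1) := fun m hm => by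
    unfold mate
    rw [if_neg (by omega)]
    ring
  rcases h1 with h1 | h1 <;> rcases h2 with h2 | h2
  · exact ⟨-1, -1, by omega, by omega, fun x => hm2 _ (by omega), fun x => hm2 _ (by omega)⟩
  · exact ⟨-1, 1, by omega, by omega, fun x => hm2 _ (by omega), fun x => hm1 _ (by omega)⟩
  · exact ⟨1, -1, by omega, by omega, fun x => hm1 _ (by omega), fun x => hm2 _ (by omega)⟩
  · exact ⟨1, 1, by omega, by omega, fun x => hm1 _ (by omega), fun x => hm1 _ (by omega)⟩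

end Pool.Agent.R518.G
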